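import Mathlib

/-!
# Integer points of dilated bodies — helper852
-/

set_option autoImplicit false

open MeasureTheory Filter Topology Bornology
open scoped Pointwise

namespace Pool.Agent.TH852.Lat

variable {k : ℕ}

/-- real vector of an integer vector -/
def zr (z : Fin k → ℤ) : Fin k → ℝ := fun i => (z i : ℝ)

@[simp] lemma zr_apply (z : Fin k → ℤ) (i : Fin k) : zr z i = (z i : ℝ) := rfl

lemma zr_add (a b : Fin k → ℤ) : zr (a + b) = zr a + zr b := by
  ext i; simp [zr]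

lemma zr_injective : Function.Injective (zr : (Fin k → ℤ) → (Fin k → ℝ)) := by
  intro a b h
  ext i
  have := congrFun h i
  simpa [zr] using this

/-- integer points `z` with `z / n` in `S` -/
def ZP (S : Set (Fin k → ℝ)) (n : ℕ) : Set (Fin k → ℤ) := {z | (n : ℝ)⁻¹ • zr z ∈ S}

lemma ZP_mono {S T : Set (Fin k → ℝ)} (h : S ⊆ T) (n : ℕ) : ZP S n ⊆ ZP T n := fun _ hz => h hz

lemma ZP_finite {S : Set (Fin k → ℝ)} (hS : IsBounded S) {n : ℕ} (hn : 1 ≤ n) :
    (ZP S n).Finite := by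
  obtain ⟨R, hR⟩ := hS.subset_closedBall 0
  have hn0 : (0 : ℝ) < n := by exact_mod_cast hn
  refine (Set.finite_Icc (fun _ : Fin k => -⌈R * n⌉) (fun _ => ⌈R * n⌉)).subset ?_
  intro z hz
  have h1 := hR hz
  rw [mem_closedBall_zero_iff, norm_smul, norm_inv, Real.norm_of_nonneg hn0.le] at h1
  have hR0 : 0 ≤ R := le_trans (by positivity) h1
  have h2 : ‖zr z‖ ≤ R * n := by
    rw [inv_mul_le_iff₀ hn0] at h1
    linarith
  have h3 := (pi_norm_le_iff_of_nonneg (by positivity)).1 h2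
  have h4 : ∀ i, -⌈R * n⌉ ≤ z i ∧ z i ≤ ⌈R * n⌉ := by
    intro i
    have h5 := h3 i
    rw [Real.norm_eq_abs, zr_apply, abs_le] at h5
    have h6 := Int.le_ceil (R * n)
    constructor
    · have : ((-⌈R * n⌉ : ℤ) : ℝ) ≤ (z i : ℝ) := by push_cast; linarith
      exact_mod_cast this
    · have : (z i : ℝ) ≤ ((⌈R * n⌉ : ℤ) : ℝ) := by linarith
      exact_mod_cast this
  exact ⟨fun i => (h4 i).1, fun i => (h4 i).2⟩

/-- the number of integer points of `n S` is asymptotic to `n ^ k * vol S` -/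
theorem tendsto_ZP {S : Set (Fin k → ℝ)} (hb : IsBounded S) (hm : MeasurableSet S)
    (hf : volume (frontier S) = 0) :
    Tendsto (fun n : ℕ => ((ZP S n).ncard : ℝ) / (n : ℝ) ^ k) atTop (𝓝 (volume.real S)) := by
  have h := tendsto_card_div_pow_atTop_volume S hb hm hf
  rw [Fintype.card_fin] at h
  refine h.congr' ?_
  filter_upwards [eventually_ge_atTop 1] with n hn
  have hn0 : (n : ℝ) ≠ 0 := by
    have : (0 : ℝ) < n := by exact_mod_cast hn
    exact this.ne'
  congr 2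
  rw [← Nat.card_coe_set_eq]
  symm
  refine Nat.card_congr (Equiv.ofBijective
    (fun z : ZP S n => (⟨(n : ℝ)⁻¹ • zr z.1, z.2, ?_⟩ :
      ↑(S ∩ (n : ℝ)⁻¹ • (Submodule.span ℤ (Set.range (Pi.basisFun ℝ (Fin k))) :
        Set (Fin k → ℝ))))) ⟨?_, ?_⟩)
  · refine Set.smul_mem_smul_set ?_
    rw [SetLike.mem_coe, Module.Basis.mem_span_iff_repr_mem]
    intro i
    exact ⟨z.1 i, by simp⟩
  · intro z w hzw
    have h1 : (n : ℝ)⁻¹ • zr z.1 = (n : ℝ)⁻¹ • zr w.1 := congrArg Subtype.val hzw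
    have h2 := smul_right_injective _ (inv_ne_zero hn0) h1
    exact Subtype.ext (zr_injective h2)
  · rintro ⟨y, hyS, hy⟩
    obtain ⟨w, hw, rfl⟩ := Set.mem_smul_set.1 hy
    rw [SetLike.mem_coe, Module.Basis.mem_span_iff_repr_mem] at hw
    choose z hz using hw
    have hzw : zr z = w := by
      ext i
      have := hz i
      simpa using this
    refine ⟨⟨z, ?_⟩, ?_⟩
    · show (n : ℝ)⁻¹ • zr z ∈ S
      rw [hzw]; exact hyS
    · apply Subtype.ext
      show (n : ℝ)⁻¹ • zr z = (n : ℝ)⁻¹ • w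
      rw [hzw]

/-- convex bounded closed sets are admissible -/
theorem tendsto_ZP_convex {S : Set (Fin k → ℝ)} (hb : IsBounded S) (hc : IsClosed S)
    (hv : Convex ℝ S) :
    Tendsto (fun n : ℕ => ((ZP S n).ncard : ℝ) / (n : ℝ) ^ k) atTop (𝓝 (volume.real S)) :=
  tendsto_ZP hb hc.measurableSet (hv.addHaar_frontier _)

end Pool.Agent.TH852.Lat
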