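import Mathlib

/-!
# Graded semigroups of lattice points (Khovanskii) — helper852

`G m` = set of exponents of degree `m`, a graded semigroup containing `(1,0)` and `(q,e_i)`.
`Del G` = closure of the union of `(1/m) G m`.
-/

set_option autoImplicit false

open MeasureTheory Filter Topology
open scoped Pointwise

namespace Pool.Agent.TH852.SG

variable {k : ℕ}

/-- graded semigroup of exponents -/
structure GS (G : ℕ → Set (Fin k → ℕ)) : Prop where
  add : ∀ {m n : ℕ} {a b : Fin k → ℕ}, a ∈ G m → b ∈ G n → a + b ∈ G (m + n)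
  zero : (0 : Fin k → ℕ) ∈ G 1
  unit : ∃ q : ℕ, 1 ≤ q ∧ ∀ i, (Pi.single i 1 : Fin k → ℕ) ∈ G q
  bdd : ∃ R : ℕ, ∀ m a, a ∈ G m → ∑ i, a i ≤ R * m

/-- real vector of an exponent -/
def emb (a : Fin k → ℕ) : Fin k → ℝ := fun i => (a i : ℝ)

@[simp] lemma emb_apply (a : Fin k → ℕ) (i : Fin k) : emb a i = (a i : ℝ) := rfl

lemma emb_add (a b : Fin k → ℕ) : emb (a + b) = emb a + emb b := by
  ext i; simp [emb]

lemma emb_zero : emb (0 : Fin k → ℕ) = 0 := by
  ext i; simp [emb]

lemma emb_nsmul (n : ℕ) (a : Fin k → ℕ) : emb (n • a) = (n : ℝ) • emb a := by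
  ext i; simp [emb]

lemma emb_injective : Function.Injective (emb : (Fin k → ℕ) → (Fin k → ℝ)) := by
  intro a b h
  ext i
  have := congrFun h i
  simpa [emb] using this

/-- the rescaled points -/
def pts (G : ℕ → Set (Fin k → ℕ)) : Set (Fin k → ℝ) :=
  {x | ∃ m : ℕ, 1 ≤ m ∧ ∃ a ∈ G m, x = (m : ℝ)⁻¹ • emb a}

/-- the body of the semigroup -/
def Del (G : ℕ → Set (Fin k → ℕ)) : Set (Fin k → ℝ) := closure (pts G)

variable {G : ℕ → Set (Fin k → ℕ)}

lemma pts_subset_Del : pts G ⊆ Del G := subset_closure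

lemma isClosed_Del : IsClosed (Del G) := isClosed_closure

lemma mem_Del_of_mem {m : ℕ} (hm : 1 ≤ m) {a : Fin k → ℕ} (ha : a ∈ G m) :
    (m : ℝ)⁻¹ • emb a ∈ Del G := subset_closure ⟨m, hm, a, ha, rfl⟩

namespace GS

variable (h : GS G)
include h

lemma zero_mem {m : ℕ} (hm : 1 ≤ m) : (0 : Fin k → ℕ) ∈ G m := by
  induction m, hm using Nat.le_induction with
  | base => exact h.zero
  | succ n hn ih => simpa using h.add ih h.zero

lemma mono {m n : ℕ} (hmn : m ≤ n) {a : Fin k → ℕ} (ha : a ∈ G m) : a ∈ G n := by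
  rcases Nat.eq_or_lt_of_le hmn with rfl | hlt
  · exact ha
  · have := h.add ha (h.zero_mem (m := n - m) (by omega))
    simpa [Nat.add_sub_cancel' hmn] using this

lemma nsmul {m : ℕ} {a : Fin k → ℕ} (ha : a ∈ G m) {c : ℕ} (hc : 1 ≤ c) : c • a ∈ G (c * m) := by
  induction c, hc using Nat.le_induction with
  | base => simpa using ha
  | succ n hn ih =>
    have := h.add ih ha
    rw [add_smul, one_smul, Nat.add_mul, Nat.one_mul]
    exact this

/-- `P n a`: `a` is in `G n`, or both are zero -/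
lemma add' {m n : ℕ} {a b : Fin k → ℕ} (ha : a ∈ G m ∨ (m = 0 ∧ a = 0))
    (hb : b ∈ G n ∨ (n = 0 ∧ b = 0)) : a + b ∈ G (m + n) ∨ (m + n = 0 ∧ a + b = 0) := by
  rcases ha with ha | ⟨rfl, rfl⟩
  · rcases hb with hb | ⟨rfl, rfl⟩
    · exact Or.inl (h.add ha hb)
    · left; simpa using ha
  · simpa using hb

lemma nsmul' {m : ℕ} {a : Fin k → ℕ} (ha : a ∈ G m ∨ (m = 0 ∧ a = 0)) (c : ℕ) :
    c • a ∈ G (c * m) ∨ (c * m = 0 ∧ c • a = 0) := by
  induction c with
  | zero => right; simp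
  | succ n ih =>
    have := h.add' ih ha
    rw [add_smul, one_smul, Nat.add_mul, Nat.one_mul]
    exact this

lemma sum' {ι : Type*} (s : Finset ι) (m : ι → ℕ) (a : ι → Fin k → ℕ)
    (ha : ∀ i ∈ s, a i ∈ G (m i) ∨ (m i = 0 ∧ a i = 0)) :
    ∑ i ∈ s, a i ∈ G (∑ i ∈ s, m i) ∨ (∑ i ∈ s, m i = 0 ∧ ∑ i ∈ s, a i = 0) := by
  classical
  induction s using Finset.induction_on with
  | empty => right; simp
  | insert j s hj ih =>
    rw [Finset.sum_insert hj, Finset.sum_insert hj]
    exact h.add' (ha j (Finset.mem_insert_self j s))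
      (ih fun i hi => ha i (Finset.mem_insert_of_mem hi))

/-- every exponent `a` has degree at most `q |a|` -/
lemma mem_of_sum : ∃ q : ℕ, ∀ a : Fin k → ℕ,
    a ∈ G (q * ∑ i, a i) ∨ (q * ∑ i, a i = 0 ∧ a = 0) := by
  obtain ⟨q, -, hq⟩ := h.unit
  refine ⟨q, fun a => ?_⟩
  have h1 := h.sum' Finset.univ (fun i => a i * q) (fun i => a i • (Pi.single i 1 : Fin k → ℕ))
    (fun i _ => h.nsmul' (Or.inl (hq i)) (a i))
  have h2 : ∑ i, a i • (Pi.single i 1 : Fin k → ℕ) = a := by
    ext j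
    simp [Finset.sum_apply, Pi.single_apply]
  rw [h2] at h1
  rw [Finset.mul_sum]
  simpa [mul_comm] using h1

/-- **Khovanskii**: exponents in the cone over finitely many elements belong to the semigroup,
up to a bounded shift of the degree. -/
theorem kh {ι : Type*} [Fintype ι] (m : ι → ℕ) (a : ι → Fin k → ℕ) (ha : ∀ j, a j ∈ G (m j)) :
    ∃ C : ℕ, ∀ (n : ℕ) (b : Fin k → ℕ) (l : ι → ℝ), (∀ j, 0 ≤ l j) →
      emb b = ∑ j, l j • emb (a j) → ∑ j, l j * m j + C ≤ n → b ∈ G n := by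
  classical
  obtain ⟨q, hq⟩ := h.mem_of_sum
  set S : ℕ := ∑ j, ∑ i, a j i with hS
  refine ⟨q * S + 1, fun n b l hl hb hn => ?_⟩
  set c : ι → ℕ := fun j => ⌊l j⌋₊ with hc
  -- the integral part
  have hle : ∀ i, (∑ j, c j • a j) i ≤ b i := by
    intro i
    have h1 : ((∑ j, c j • a j) i : ℝ) ≤ (b i : ℝ) := by
      have h2 := congrFun hb i
      rw [emb_apply] at h2
      rw [h2]
      simp only [Finset.sum_apply, Pi.smul_apply, smul_eq_mul, emb_apply]
      push_cast
      refine Finset.sum_le_sum fun j _ => ?_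
      exact mul_le_mul_of_nonneg_right (Nat.floor_le (hl j)) (Nat.cast_nonneg _)
    exact_mod_cast h1
  set r : Fin k → ℕ := fun i => b i - (∑ j, c j • a j) i with hr
  have hbr : b = ∑ j, c j • a j + r := by
    ext i
    simp only [Pi.add_apply, hr]
    have := hle i
    omega
  have hrs : ∑ i, r i ≤ S := by
    have h1 : ((∑ i, r i : ℕ) : ℝ) ≤ (S : ℝ) := by
      have h2 : ∀ i, (r i : ℝ) = ∑ j, (l j - c j) * (a j i : ℝ) := by
        intro i
        have h3 : (r i : ℝ) = (b i : ℝ) - ((∑ j, c j • a j) i : ℕ) := by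
          rw [hr]; push_cast [Nat.cast_sub (hle i)]; ring
        have h4 := congrFun hb i
        rw [emb_apply] at h4
        rw [h3, h4]
        simp only [Finset.sum_apply, Pi.smul_apply, smul_eq_mul, emb_apply]
        push_cast
        rw [← Finset.sum_sub_distrib]
        exact Finset.sum_congr rfl fun j _ => by ring
      push_cast
      rw [hS]
      push_cast
      calc ∑ i, (r i : ℝ) = ∑ i, ∑ j, (l j - c j) * (a j i : ℝ) := Finset.sum_congr rfl fun i _ => h2 i
        _ = ∑ j, ∑ i, (l j - c j) * (a j i : ℝ) := Finset.sum_comm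
        _ ≤ ∑ j, ∑ i, (a j i : ℝ) := by
          refine Finset.sum_le_sum fun j _ => Finset.sum_le_sum fun i _ => ?_
          have h5 : l j - c j ≤ 1 := by
            have := Nat.lt_floor_add_one (l j)
            simp only [hc]; linarith
          have h6 : (0 : ℝ) ≤ (a j i : ℝ) := Nat.cast_nonneg _
          nlinarith
    exact_mod_cast h1
  have h1 := h.sum' Finset.univ (fun j => c j * m j) (fun j => c j • a j)
    (fun j _ => h.nsmul' (Or.inl (ha j)) (c j))
  have h2 := h.add' h1 (hq r)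
  rw [← hbr] at h2
  have hlev : (∑ j, c j * m j) + q * ∑ i, r i + 1 ≤ n := by
    have h3 : ((∑ j, c j * m j : ℕ) : ℝ) ≤ ∑ j, l j * m j := by
      push_cast
      refine Finset.sum_le_sum fun j _ => ?_
      exact mul_le_mul_of_nonneg_right (Nat.floor_le (hl j)) (Nat.cast_nonneg _)
    have h4 : ((∑ j, c j * m j : ℕ) : ℝ) + ((q * S + 1 : ℕ) : ℝ) ≤ (n : ℝ) := by
      push_cast at hn h3 ⊢
      linarith
    have h5 : (∑ j, c j * m j) + (q * S + 1) ≤ n := by exact_mod_cast h4
    have h6 : q * ∑ i, r i ≤ q * S := Nat.mul_le_mul_left q hrs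
    omega
  rcases h2 with h2 | ⟨h2, h3⟩
  · exact h.mono (by omega) h2
  · rw [h3]
    exact h.zero_mem (by omega)

end GS

end Pool.Agent.TH852.SG
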