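import Pool.Agent.TH852.SG
import Pool.Agent.TH852.Lat

/-!
# Volume of the body of a graded semigroup — helper852
-/

set_option autoImplicit false

open MeasureTheory Filter Topology Bornology
open scoped Pointwise

namespace Pool.Agent.TH852.SG

variable {k : ℕ} {G : ℕ → Set (Fin k → ℕ)}

namespace GS

variable (h : GS G)
include h

lemma pts_comb {x y : Fin k → ℝ} (hx : x ∈ pts G) (hy : y ∈ pts G) {u v : ℕ} (hu : 1 ≤ u)
    (hv : 1 ≤ v) : ((u : ℝ) + v)⁻¹ • ((u : ℝ) • x + (v : ℝ) • y) ∈ pts G := by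
  obtain ⟨m, hm, a, ha, rfl⟩ := hx
  obtain ⟨n, hn, b, hb, rfl⟩ := hy
  have hun : 1 ≤ u * n := Nat.mul_pos hu hn
  have hvm : 1 ≤ v * m := Nat.mul_pos hv hm
  have h1 := h.add (h.nsmul ha hun) (h.nsmul hb hvm)
  refine ⟨_, ?_, _, h1, ?_⟩
  · have : 1 ≤ u * n * m := Nat.mul_pos hun hm
    omega
  · have hm0 : (m : ℝ) ≠ 0 := by positivity
    have hn0 : (n : ℝ) ≠ 0 := by positivity
    have huv : (u : ℝ) + v ≠ 0 := by positivity
    ext i
    simp only [emb_add, emb_nsmul, Pi.smul_apply, Pi.add_apply, emb_apply, smul_eq_mul]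
    push_cast
    have h3 : (u : ℝ) * n * m + v * m * n = (u + v) * (m * n) := by ring
    rw [h3]
    field_simp

lemma convex_Del : Convex ℝ (Del G) := by
  have key : ∀ x ∈ pts G, ∀ y ∈ pts G, ∀ t ∈ Set.Icc (0 : ℝ) 1, (1 - t) • x + t • y ∈ Del G := by
    intro x hx y hy
    have hcl : IsClosed {t : ℝ | (1 - t) • x + t • y ∈ Del G} :=
      isClosed_Del.preimage (by fun_prop)
    have hrat : Set.Ioo (0 : ℝ) 1 ∩ Set.range ((↑) : ℚ → ℝ) ⊆
        {t : ℝ | (1 - t) • x + t • y ∈ Del G} := by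
      rintro t ⟨⟨h0, h1⟩, ⟨q, rfl⟩⟩
      have hq0 : 0 < q := by exact_mod_cast h0
      have hq1 : q < 1 := by exact_mod_cast h1
      have hnum : 0 < q.num := Rat.num_pos.2 hq0
      have hlt : q.num < q.den := by
        have h2 : q.num / (q.den : ℚ) < 1 := by rw [Rat.num_div_den]; exact hq1
        have h3 : (0 : ℚ) < q.den := by exact_mod_cast q.den_pos
        rw [div_lt_one h3] at h2
        exact_mod_cast h2
      set v : ℕ := q.num.toNat with hv
      have hv' : (v : ℤ) = q.num := Int.toNat_of_nonneg hnum.le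
      set u : ℕ := q.den - v with hu
      have hv1 : 1 ≤ v := by omega
      have hu1 : 1 ≤ u := by omega
      have huv : (u : ℝ) + v = q.den := by
        have : u + v = q.den := by omega
        exact_mod_cast this
      have h5 : (q : ℝ) = v / q.den := by
        have : (q : ℝ) = (q.num : ℝ) / q.den := by exact_mod_cast (Rat.num_div_den q).symm
        rw [this, ← hv']
        simp
      have h6 : (0 : ℝ) < q.den := by exact_mod_cast q.den_pos
      have h7 := pts_subset_Del (h.pts_comb hx hy hu1 hv1)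
      have h8 : (1 - (q : ℝ)) • x + (q : ℝ) • y =
          ((u : ℝ) + v)⁻¹ • ((u : ℝ) • x + (v : ℝ) • y) := by
        rw [smul_add, smul_smul, smul_smul, huv, h5]
        congr 2
        · rw [show (u : ℝ) = q.den - v by linarith]
          field_simp
        · field_simp
      show (1 - (q : ℝ)) • x + (q : ℝ) • y ∈ Del G
      rw [h8]
      exact h7
    have h9 : Set.Icc (0 : ℝ) 1 ⊆ {t : ℝ | (1 - t) • x + t • y ∈ Del G} := by
      have h10 : Set.Ioo (0 : ℝ) 1 ⊆ closure (Set.Ioo (0 : ℝ) 1 ∩ Set.range ((↑) : ℚ → ℝ)) :=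
        (Rat.denseRange_cast (𝕜 := ℝ)).open_subset_closure_inter isOpen_Ioo
      have h11 : Set.Ioo (0 : ℝ) 1 ⊆ {t : ℝ | (1 - t) • x + t • y ∈ Del G} :=
        h10.trans (closure_minimal hrat hcl)
      rw [← closure_Ioo (zero_ne_one)]
      exact closure_minimal h11 hcl
    exact fun t ht => h9 ht
  -- pass to the closure
  rw [convex_iff_forall_pos]
  intro x hx y hy a b ha hb hab
  have h1 : ∀ p ∈ pts G ×ˢ pts G, a • p.1 + b • p.2 ∈ Del G := by
    rintro ⟨x, y⟩ ⟨hx, hy⟩
    have := key x hx y hy b ⟨hb.le, by linarith⟩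
    rwa [show 1 - b = a by linarith] at this
  have h2 : (x, y) ∈ closure (pts G ×ˢ pts G) := by
    rw [closure_prod_eq]
    exact ⟨hx, hy⟩
  have h3 : IsClosed {p : (Fin k → ℝ) × (Fin k → ℝ) | a • p.1 + b • p.2 ∈ Del G} :=
    isClosed_Del.preimage (by fun_prop)
  exact closure_minimal (fun p hp => h1 p hp) h3 h2

lemma zero_mem_pts : (0 : Fin k → ℝ) ∈ pts G :=
  ⟨1, le_rfl, 0, h.zero, by simp [emb_zero]⟩

lemma exists_unit_mem_pts : ∃ q : ℕ, 1 ≤ q ∧ ∀ i,
    (Pi.single i ((q : ℝ)⁻¹) : Fin k → ℝ) ∈ pts G := by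
  obtain ⟨q, hq, hu⟩ := h.unit
  refine ⟨q, hq, fun i => ⟨q, hq, _, hu i, ?_⟩⟩
  ext j
  by_cases hj : j = i
  · subst hj; simp [emb]
  · simp [emb, hj]

lemma isBounded_Del : IsBounded (Del G) := by
  obtain ⟨R, hR⟩ := h.bdd
  refine (Metric.isBounded_closedBall (x := (0 : Fin k → ℝ)) (r := R)).subset
    (closure_minimal ?_ Metric.isClosed_closedBall)
  rintro x ⟨m, hm, a, ha, rfl⟩
  have hm0 : (0 : ℝ) < m := by exact_mod_cast hm
  rw [mem_closedBall_zero_iff, pi_norm_le_iff_of_nonneg (by positivity)]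
  intro i
  rw [Pi.smul_apply, smul_eq_mul, emb_apply, Real.norm_of_nonneg (by positivity),
    inv_mul_le_iff₀ hm0]
  have h1 : a i ≤ R * m := (Finset.single_le_sum (fun _ _ => Nat.zero_le _)
    (Finset.mem_univ i)).trans (hR m a ha)
  have : (a i : ℝ) ≤ R * m := by exact_mod_cast h1
  linarith

lemma isCompact_Del : IsCompact (Del G) :=
  Metric.isCompact_of_isClosed_isBounded isClosed_Del h.isBounded_Del

omit h in
lemma Del_nonneg {x : Fin k → ℝ} (hx : x ∈ Del G) (i : Fin k) : 0 ≤ x i := by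
  have h1 : IsClosed {x : Fin k → ℝ | 0 ≤ x i} := isClosed_le continuous_const (continuous_apply i)
  refine closure_minimal ?_ h1 hx
  rintro y ⟨m, hm, a, ha, rfl⟩
  simp only [Set.mem_ofPred_eq, Pi.smul_apply, emb_apply, smul_eq_mul]
  positivity

/-- a small box lies in every convex set containing `pts` -/
lemma box_subset {S : Set (Fin k → ℝ)} (hS : Convex ℝ S) (hp : pts G ⊆ S) :
    ∃ r : ℝ, 0 < r ∧ ∀ x : Fin k → ℝ, (∀ i, 0 ≤ x i) → (∀ i, x i ≤ r) → x ∈ S := by
  obtain ⟨q, hq, hu⟩ := h.exists_unit_mem_pts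
  have hq0 : (0 : ℝ) < q := by exact_mod_cast hq
  refine ⟨(q * (k + 1))⁻¹, by positivity, fun x hx0 hx1 => ?_⟩
  have hsum : ∑ i, (q : ℝ) * x i ≤ 1 := by
    calc ∑ i, (q : ℝ) * x i ≤ ∑ _i : Fin k, (q : ℝ) * ((q : ℝ) * ((k : ℝ) + 1))⁻¹ :=
          Finset.sum_le_sum fun i _ => mul_le_mul_of_nonneg_left (hx1 i) hq0.le
      _ = (k : ℝ) * ((q : ℝ) * ((q : ℝ) * ((k : ℝ) + 1))⁻¹) := by simp
      _ = (k : ℝ) / (k + 1) := by field_simp
      _ ≤ 1 := by rw [div_le_one (by positivity)]; linarith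
  have h1 := hS.sum_mem (t := Finset.univ)
    (w := fun o : Option (Fin k) => o.elim (1 - ∑ i, (q : ℝ) * x i) (fun i => q * x i))
    (z := fun o : Option (Fin k) => o.elim (0 : Fin k → ℝ) (fun i => Pi.single i ((q : ℝ)⁻¹)))
    (by
      rintro (_ | i) _
      · simp only [Option.elim]; linarith
      · simp only [Option.elim]; exact mul_nonneg hq0.le (hx0 i))
    (by rw [Fintype.sum_option]; simp)
    (by
      rintro (_ | i) _
      · exact hp h.zero_mem_pts
      · exact hp (hu i))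
  rw [Fintype.sum_option] at h1
  convert h1 using 1
  ext j
  simp only [Option.elim, smul_zero, zero_add, Finset.sum_apply, Pi.smul_apply, smul_eq_mul,
    Pi.single_apply]
  simp only [mul_ite, mul_zero, Finset.sum_ite_eq, Finset.mem_univ, if_true]
  field_simp

lemma interior_nonempty {S : Set (Fin k → ℝ)} (hS : Convex ℝ S) (hp : pts G ⊆ S) :
    (interior S).Nonempty := by
  obtain ⟨r, hr, hbox⟩ := h.box_subset hS hp
  refine ⟨fun _ => r / 2, ?_⟩
  rw [mem_interior]
  refine ⟨Set.univ.pi fun _ => Set.Ioo 0 r, ?_, isOpen_set_pi Set.finite_univ fun _ _ => isOpen_Ioo,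
    fun i _ => ⟨by linarith, by linarith⟩⟩
  intro x hx
  exact hbox x (fun i => (hx i trivial).1.le) (fun i => (hx i trivial).2.le)

lemma interior_Del_nonempty : (interior (Del G)).Nonempty :=
  h.interior_nonempty h.convex_Del pts_subset_Del

lemma closure_convexHull_pts : closure (convexHull ℝ (pts G)) = Del G := by
  apply Set.Subset.antisymm
  · exact closure_minimal (convexHull_min pts_subset_Del h.convex_Del) isClosed_Del
  · exact closure_mono (subset_convexHull ℝ _)

lemma interior_Del : interior (Del G) = interior (convexHull ℝ (pts G)) := by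
  rw [← h.closure_convexHull_pts]
  exact (convex_convexHull ℝ _).interior_closure_eq_interior_of_nonempty_interior
    (h.interior_nonempty (convex_convexHull ℝ _) (subset_convexHull ℝ _))

end GS

end Pool.Agent.TH852.SG
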