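import Pool.Agent.TH852.SGB

/-!
# The number of elements of degree `n` of a graded semigroup — helper852
-/

set_option autoImplicit false

open MeasureTheory Filter Topology Bornology
open scoped Pointwise

namespace Pool.Agent.TH852.SG

variable {k : ℕ} {G : ℕ → Set (Fin k → ℕ)}

namespace GS

variable (h : GS G)
include h

lemma finite_deg (n : ℕ) : (G n).Finite := by
  obtain ⟨R, hR⟩ := h.bdd
  refine (Set.finite_Icc (0 : Fin k → ℕ) (fun _ => R * n)).subset ?_
  intro a ha
  refine ⟨fun i => Nat.zero_le _, fun i => ?_⟩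
  exact (Finset.single_le_sum (fun _ _ => Nat.zero_le _) (Finset.mem_univ i)).trans (hR n a ha)

/-- points of a slightly smaller polytope spanned by `pts` are in the semigroup -/
lemma mem_of_mem_smul_hull (F : Finset (Fin k → ℝ)) (hF : (F : Set (Fin k → ℝ)) ⊆ pts G)
    {δ : ℝ} (h0 : 0 < δ) (h1 : δ < 1) :
    ∀ᶠ n : ℕ in atTop, ∀ b : Fin k → ℕ,
      (n : ℝ)⁻¹ • emb b ∈ (1 - δ) • convexHull ℝ (F : Set (Fin k → ℝ)) → b ∈ G n := by
  classical
  have hF' : ∀ x : F, ∃ m : ℕ, 1 ≤ m ∧ ∃ a ∈ G m, (x : Fin k → ℝ) = (m : ℝ)⁻¹ • emb a :=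
    fun x => hF x.2
  choose m hm a ha hx using hF'
  obtain ⟨C, hC⟩ := h.kh m a ha
  obtain ⟨N, hN⟩ := exists_nat_ge ((C : ℝ) / δ)
  filter_upwards [eventually_ge_atTop (max N 1)] with n hn b hb
  have hn1 : 1 ≤ n := (le_max_right _ _).trans hn
  have hnN : N ≤ n := (le_max_left _ _).trans hn
  have hn0 : (0 : ℝ) < n := by exact_mod_cast hn1
  obtain ⟨y, hy, hyb⟩ := Set.mem_smul_set.1 hb
  rw [Finset.mem_convexHull'] at hy
  obtain ⟨w, hw0, hw1, hwy⟩ := hy
  refine hC n b (fun x => n * (1 - δ) * w x / m x) (fun x => ?_) ?_ ?_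
  · have := hw0 x x.2
    have h3 : (0 : ℝ) < m x := by exact_mod_cast hm x
    have h4 : 0 < 1 - δ := by linarith
    positivity
  · have h3 : emb b = (n : ℝ) • ((1 - δ) • y) := by
      rw [hyb, smul_smul, mul_inv_cancel₀ hn0.ne', one_smul]
    rw [h3, ← hwy, ← Finset.sum_coe_sort F (fun x => w x • x), Finset.smul_sum, Finset.smul_sum]
    refine Finset.sum_congr rfl fun x _ => ?_
    have h4 : (m x : ℝ) ≠ 0 := by
      have : (0 : ℝ) < m x := by exact_mod_cast hm x
      exact this.ne'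
    have h5 : (x : Fin k → ℝ) = (m x : ℝ)⁻¹ • emb (a x) := hx x
    calc (n : ℝ) • (1 - δ) • w x • (x : Fin k → ℝ)
        = (n : ℝ) • (1 - δ) • w x • ((m x : ℝ)⁻¹ • emb (a x)) := by rw [← h5]
      _ = (n * (1 - δ) * w x / m x) • emb (a x) := by
        simp only [smul_smul]
        congr 1
        ring
  · have h4 : ∑ x : F, (n : ℝ) * (1 - δ) * w x / m x * m x = n * (1 - δ) := by
      calc ∑ x : F, (n : ℝ) * (1 - δ) * w x / m x * m x = ∑ x : F, (n : ℝ) * (1 - δ) * w x := by
            refine Finset.sum_congr rfl fun x _ => ?_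
            have : (0 : ℝ) < m x := by exact_mod_cast hm x
            field_simp
        _ = n * (1 - δ) := by
            rw [← Finset.mul_sum, Finset.sum_coe_sort F w, hw1, mul_one]
    rw [h4]
    have h5 : (C : ℝ) ≤ n * δ := by
      have h6 : (C : ℝ) / δ ≤ n := hN.trans (by exact_mod_cast hnN)
      rw [div_le_iff₀ h0] at h6
      exact h6
    linarith

omit h in
lemma countable_pts : (pts G).Countable := by
  have : pts G ⊆ Set.range (fun p : ℕ × (Fin k → ℕ) => (p.1 : ℝ)⁻¹ • emb p.2) := by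
    rintro x ⟨m, -, a, -, rfl⟩
    exact ⟨(m, a), rfl⟩
  exact (Set.countable_range _).mono this

/-- polytopes spanned by finitely many points of `pts` exhaust the volume -/
lemma exists_polytope {ε : ℝ} (hε : 0 < ε) :
    ∃ F : Finset (Fin k → ℝ), (F : Set (Fin k → ℝ)) ⊆ pts G ∧
      volume.real (Del G) - ε < volume.real (convexHull ℝ (F : Set (Fin k → ℝ))) := by
  classical
  obtain ⟨f, hf⟩ := (countable_pts (G := G)).exists_eq_range ⟨0, h.zero_mem_pts⟩
  set s : ℕ → Finset (Fin k → ℝ) := fun n => (Finset.range n).image f with hs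
  have hsub : ∀ n, (s n : Set (Fin k → ℝ)) ⊆ pts G := by
    intro n x hx
    rw [hs, Finset.coe_image] at hx
    obtain ⟨i, -, rfl⟩ := hx
    rw [hf]; exact ⟨i, rfl⟩
  have hmono : Monotone fun n => convexHull ℝ (s n : Set (Fin k → ℝ)) := by
    intro m n hmn
    apply convexHull_mono
    rw [Finset.coe_subset]
    exact Finset.image_subset_image (Finset.range_mono hmn)
  have hun : ⋃ n, convexHull ℝ (s n : Set (Fin k → ℝ)) = convexHull ℝ (pts G) := by
    apply Set.Subset.antisymm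
    · exact Set.iUnion_subset fun n => convexHull_mono (hsub n)
    · rw [convexHull_eq_union_convexHull_finite_subsets]
      refine Set.iUnion₂_subset fun t ht => ?_
      have h1 : ∀ x : t, ∃ i, f i = x := fun x => by
        have := ht x.2
        rw [hf] at this
        exact this
      choose g hg using h1
      have h2 : (t : Set (Fin k → ℝ)) ⊆ s ((Finset.univ.sup g) + 1) := by
        intro x hx
        rw [hs, Finset.coe_image]
        refine ⟨g ⟨x, hx⟩, ?_, hg ⟨x, hx⟩⟩
        rw [Finset.coe_range, Set.mem_Iio]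
        exact Nat.lt_succ_of_le (Finset.le_sup (f := g) (Finset.mem_univ _))
      exact (convexHull_mono h2).trans (Set.subset_iUnion_of_subset _ subset_rfl)
  have hlim := tendsto_measure_iUnion_atTop (μ := (volume : Measure (Fin k → ℝ))) hmono
  rw [hun] at hlim
  have hvol : volume (convexHull ℝ (pts G)) = volume (Del G) := by
    rw [← h.closure_convexHull_pts]
    exact (measure_closure_of_null_frontier ((convex_convexHull ℝ (pts G)).addHaar_frontier _)).symm
  rw [hvol] at hlim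
  have hfin : volume (Del G) ≠ ⊤ := h.isCompact_Del.measure_lt_top.ne
  have hlim2 := (ENNReal.tendsto_toReal hfin).comp hlim
  have hlim3 : ∀ᶠ n in atTop, volume.real (Del G) - ε <
      (volume (convexHull ℝ (s n : Set (Fin k → ℝ)))).toReal :=
    hlim2.eventually (lt_mem_nhds (by show _ < volume.real (Del G); linarith))
  obtain ⟨n, hn⟩ := hlim3.exists
  exact ⟨s n, hsub n, hn⟩

lemma ncard_le (n : ℕ) (hn : 1 ≤ n) : (G n).ncard ≤ (Lat.ZP (Del G) n).ncard := by
  refine Set.ncard_le_ncard_of_injOn (fun a i => (a i : ℤ)) ?_ ?_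
    (Lat.ZP_finite h.isBounded_Del hn)
  · intro a ha
    exact mem_Del_of_mem hn ha
  · intro a _ b _ hab
    ext i
    have := congrFun hab i
    simpa using this

lemma ZP_le (n : ℕ) {S : Set (Fin k → ℝ)} (hn : 1 ≤ n) (hS : S ⊆ {x | ∀ i, 0 ≤ x i})
    (hSG : ∀ b : Fin k → ℕ, (n : ℝ)⁻¹ • emb b ∈ S → b ∈ G n) :
    (Lat.ZP S n).ncard ≤ (G n).ncard := by
  have hn0 : (0 : ℝ) < n := by exact_mod_cast hn
  have hnn : ∀ z ∈ Lat.ZP S n, ∀ i, 0 ≤ z i := by
    intro z hz i
    have h1 := hS hz i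
    rw [Pi.smul_apply, smul_eq_mul, Lat.zr_apply] at h1
    have h2 : (0 : ℝ) ≤ (z i : ℝ) := by
      by_contra hneg
      push Not at hneg
      have := mul_neg_of_pos_of_neg (inv_pos.2 hn0) hneg
      linarith
    exact_mod_cast h2
  refine Set.ncard_le_ncard_of_injOn (fun z i => (z i).toNat) ?_ ?_ (h.finite_deg n)
  · intro z hz
    apply hSG
    have h1 : emb (fun i => (z i).toNat) = Lat.zr z := by
      ext i
      rw [emb_apply, Lat.zr_apply]
      have : ((z i).toNat : ℤ) = z i := Int.toNat_of_nonneg (hnn z hz i)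
      exact_mod_cast this
    rw [h1]
    exact hz
  · intro z hz w hw hzw
    ext i
    have h1 : (z i).toNat = (w i).toNat := congrFun hzw i
    have h2 := hnn z hz i
    have h3 := hnn w hw i
    omega

/-- **Main theorem**: the number of elements of degree `n` is asymptotic to `n ^ k * vol Del`. -/
theorem tendsto_card :
    Tendsto (fun n : ℕ => ((G n).ncard : ℝ) / (n : ℝ) ^ k) atTop (𝓝 (volume.real (Del G))) := by
  set V := volume.real (Del G) with hV
  have hV0 : 0 ≤ V := measureReal_nonneg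
  rw [Metric.tendsto_nhds]
  intro ε hε
  -- upper bound
  have hup := Lat.tendsto_ZP_convex h.isBounded_Del isClosed_Del h.convex_Del
  rw [← hV] at hup
  have hup1 : ∀ᶠ n : ℕ in atTop, ((Lat.ZP (Del G) n).ncard : ℝ) / (n : ℝ) ^ k < V + ε :=
    hup.eventually (gt_mem_nhds (by linarith))
  -- lower bound
  obtain ⟨F, hF, hFV⟩ := h.exists_polytope (ε := ε / 2) (by linarith)
  set P := convexHull ℝ (F : Set (Fin k → ℝ)) with hP
  have hPc : IsCompact P := F.finite_toSet.isCompact_convexHull ℝ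
  have hPv : Convex ℝ P := convex_convexHull ℝ _
  have hPD : P ⊆ Del G := convexHull_min (hF.trans pts_subset_Del) h.convex_Del
  -- choose δ
  have hcont : Tendsto (fun δ : ℝ => (1 - δ) ^ k * volume.real P) (𝓝[>] 0)
      (𝓝 ((1 - 0) ^ k * volume.real P)) := by
    refine Tendsto.mono_left ?_ nhdsWithin_le_nhds
    exact Continuous.tendsto (by fun_prop) 0
  rw [sub_zero, one_pow, one_mul] at hcont
  have hev : ∀ᶠ δ : ℝ in 𝓝[>] 0, V - ε / 2 < (1 - δ) ^ k * volume.real P :=
    hcont.eventually (lt_mem_nhds hFV)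
  have hev2 : ∀ᶠ δ : ℝ in 𝓝[>] 0, δ < 1 :=
    nhdsWithin_le_nhds (gt_mem_nhds (by norm_num : (0 : ℝ) < 1))
  have hev3 : ∀ᶠ δ : ℝ in 𝓝[>] 0, 0 < δ := eventually_mem_nhdsWithin
  obtain ⟨δ, hδV, hδ1, hδ0⟩ := (hev.and (hev2.and hev3)).exists
  set S := (1 - δ) • P with hS
  have hSc : IsCompact S := hPc.smul _
  have hSv : Convex ℝ S := hPv.smul _
  have hSvol : volume.real S = (1 - δ) ^ k * volume.real P := by
    rw [hS, Measure.real, Measure.addHaar_smul, ENNReal.toReal_mul,
      ENNReal.toReal_ofReal (abs_nonneg _), Module.finrank_fin_fun,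
      abs_of_nonneg (pow_nonneg (by linarith) k)]
    rfl
  have hlow := Lat.tendsto_ZP_convex hSc.isBounded hSc.isClosed hSv
  rw [hSvol] at hlow
  have hlow1 : ∀ᶠ n : ℕ in atTop, V - ε < ((Lat.ZP S n).ncard : ℝ) / (n : ℝ) ^ k :=
    hlow.eventually (lt_mem_nhds (by linarith))
  have hSnn : S ⊆ {x | ∀ i, 0 ≤ x i} := by
    rintro x hx i
    obtain ⟨y, hy, rfl⟩ := Set.mem_smul_set.1 hx
    have := Del_nonneg (hPD hy) i
    rw [Pi.smul_apply, smul_eq_mul]
    exact mul_nonneg (by linarith) this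
  filter_upwards [hup1, hlow1, h.mem_of_mem_smul_hull F hF hδ0 hδ1, eventually_ge_atTop 1]
    with n h1 h2 h3 h4
  have hn0 : (0 : ℝ) < (n : ℝ) ^ k := by
    have : (0 : ℝ) < n := by exact_mod_cast h4
    positivity
  have h5 : ((G n).ncard : ℝ) / (n : ℝ) ^ k ≤ ((Lat.ZP (Del G) n).ncard : ℝ) / (n : ℝ) ^ k := by
    have := h.ncard_le n h4
    gcongr
  have h6 : ((Lat.ZP S n).ncard : ℝ) / (n : ℝ) ^ k ≤ ((G n).ncard : ℝ) / (n : ℝ) ^ k := by
    have := h.ZP_le n h4 hSnn h3
    gcongr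
  rw [Real.dist_eq, abs_lt]
  constructor <;> linarith

end GS

end Pool.Agent.TH852.SG
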